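import Pool.Agent.Helper97.FS.Stmts

set_option autoImplicit false

namespace Pool.Agent.Helper97.FS

open Finset MeasureTheory Filter Topology
open scoped ENNReal

/-! ### the tail of the geometric series -/

theorem z1_tail (θ : ℝ) (hθ : 1 < θ) (ε : ℝ) (hε : 0 < ε) :
    ∃ n' : ℕ, ∀ k : ℕ, n' ≤ k →
      ∑ i ∈ range (k - n'), ((k : ℝ) - i + 1) * Real.sqrt (θ ^ i) ≤ ε * Real.sqrt (θ ^ k) := by
  have hs1 : 1 < Real.sqrt θ := by
    rw [← Real.sqrt_one]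
    exact Real.sqrt_lt_sqrt (by norm_num) hθ
  have hs0 : 0 < Real.sqrt θ := by linarith
  have hpow : ∀ i : ℕ, Real.sqrt (θ ^ i) = Real.sqrt θ ^ i := by
    intro i
    rw [← Real.sqrt_sq (pow_nonneg hs0.le i), ← pow_mul, mul_comm i 2, pow_mul,
      Real.sq_sqrt (by linarith)]
  set r : ℝ := (Real.sqrt θ)⁻¹ with hr
  have hr0 : 0 < r := inv_pos.2 hs0
  have hr1 : r < 1 := inv_lt_one_of_one_lt₀ hs1
  have hrn : ‖r‖ < 1 := by rwa [Real.norm_of_nonneg hr0.le]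
  have hsum : Summable fun l : ℕ => ((l : ℝ) + 1) * r ^ l := by
    have h1 := summable_pow_mul_geometric_of_norm_lt_one 1 hrn
    have h2 := summable_geometric_of_norm_lt_one hrn
    have h3 := h1.add h2
    refine h3.congr fun l => ?_
    simp only [pow_one]
    ring
  obtain ⟨s, hs⟩ := summable_iff_vanishing_norm.1 hsum ε hε
  obtain ⟨n', hn'⟩ := s.exists_le
  refine ⟨n', fun k hk => ?_⟩
  have himg : ∑ i ∈ range (k - n'), ((((k - i : ℕ) : ℕ) : ℝ) + 1) * r ^ (k - i) =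
      ∑ l ∈ (range (k - n')).image (fun i => k - i), ((l : ℝ) + 1) * r ^ l := by
    rw [Finset.sum_image]
    intro a ha b hb hab
    have ha' := Finset.mem_range.1 ha
    have hb' := Finset.mem_range.1 hb
    simp only at hab
    omega
  have hdis : Disjoint ((range (k - n')).image (fun i => k - i)) s := by
    rw [Finset.disjoint_left]
    intro a ha has
    obtain ⟨i, hi, rfl⟩ := Finset.mem_image.1 ha
    have hi' := Finset.mem_range.1 hi
    have := hn' _ has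
    omega
  have hlt := hs _ hdis
  rw [Real.norm_eq_abs] at hlt
  have hlt' := (le_abs_self _).trans_lt hlt
  rw [← himg] at hlt'
  have heq : ∑ i ∈ range (k - n'), ((k : ℝ) - i + 1) * Real.sqrt (θ ^ i) =
      (∑ i ∈ range (k - n'), ((((k - i : ℕ) : ℕ) : ℝ) + 1) * r ^ (k - i)) * Real.sqrt (θ ^ k) := by
    rw [Finset.sum_mul]
    refine Finset.sum_congr rfl fun i hi => ?_
    have hi' := Finset.mem_range.1 hi
    have hik : i ≤ k := by omega
    rw [Nat.cast_sub hik, hpow, hpow, mul_assoc]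
    congr 1
    have h1 : Real.sqrt θ ^ k = Real.sqrt θ ^ (k - i) * Real.sqrt θ ^ i := by
      rw [← pow_add, Nat.sub_add_cancel hik]
    rw [h1, ← mul_assoc, hr, ← mul_pow, inv_mul_cancel₀ hs0.ne', one_pow, one_mul]
  rw [heq]
  exact mul_le_mul_of_nonneg_right hlt'.le (Real.sqrt_nonneg _)

/-! ### the abstract statement -/

section z1

variable {A B : Type*} [MeasurableSpace A] [MeasurableSpace B]

/-- the bad set -/
def z1_bad (V : ℝ → A × B → ℝ) (θ C0 K1 c : ℝ) (n0 n' k : ℕ) : Set (A × B) :=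
  {z | ¬ (2 * c ≤ V (K1 * θ ^ k) z ∧
    (∀ l ∈ range (n' + n0 + 1), V (C0 * θ ^ (k - n' + l)) z ≤ 2 * V (K1 * θ ^ k) z) ∧
    (∀ l ∈ range (n0 + 1), V (K1 * θ ^ k) z / 2 ≤ V (K1 * θ ^ (k + l)) z))}

theorem z1_bad_meas (V : ℝ → A × B → ℝ) (θ C0 K1 c : ℝ) (hθ : 1 < θ) (hC0 : 0 < C0)
    (hK1 : 0 < K1) (hm : ∀ t, 0 < t → Measurable (V t)) (n0 n' k : ℕ) :
    MeasurableSet (z1_bad V θ C0 K1 c n0 n' k) := by
  have hp : ∀ i : ℕ, 0 < θ ^ i := fun i => pow_pos (by linarith) i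
  have hK : ∀ i : ℕ, Measurable (V (K1 * θ ^ i)) := fun i => hm _ (mul_pos hK1 (hp i))
  have hC : ∀ i : ℕ, Measurable (V (C0 * θ ^ i)) := fun i => hm _ (mul_pos hC0 (hp i))
  have h1 : MeasurableSet {z | 2 * c ≤ V (K1 * θ ^ k) z} :=
    measurableSet_le measurable_const (hK k)
  have h2 : MeasurableSet {z | ∀ l ∈ range (n' + n0 + 1),
      V (C0 * θ ^ (k - n' + l)) z ≤ 2 * V (K1 * θ ^ k) z} := by
    have : {z | ∀ l ∈ range (n' + n0 + 1), V (C0 * θ ^ (k - n' + l)) z ≤ 2 * V (K1 * θ ^ k) z} =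
        ⋂ l ∈ range (n' + n0 + 1),
          {z | V (C0 * θ ^ (k - n' + l)) z ≤ 2 * V (K1 * θ ^ k) z} := by
      ext z
      simp
    rw [this]
    exact Finset.measurableSet_biInter _ fun l _ =>
      measurableSet_le (hC _) ((hK k).const_mul 2)
  have h3 : MeasurableSet {z | ∀ l ∈ range (n0 + 1),
      V (K1 * θ ^ k) z / 2 ≤ V (K1 * θ ^ (k + l)) z} := by
    have : {z | ∀ l ∈ range (n0 + 1), V (K1 * θ ^ k) z / 2 ≤ V (K1 * θ ^ (k + l)) z} =
        ⋂ l ∈ range (n0 + 1), {z | V (K1 * θ ^ k) z / 2 ≤ V (K1 * θ ^ (k + l)) z} := by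
      ext z
      simp
    rw [this]
    exact Finset.measurableSet_biInter _ fun l _ =>
      measurableSet_le ((hK k).div_const 2) (hK _)
  have : z1_bad V θ C0 K1 c n0 n' k = ({z | 2 * c ≤ V (K1 * θ ^ k) z} ∩
      ({z | ∀ l ∈ range (n' + n0 + 1), V (C0 * θ ^ (k - n' + l)) z ≤ 2 * V (K1 * θ ^ k) z} ∩
      {z | ∀ l ∈ range (n0 + 1), V (K1 * θ ^ k) z / 2 ≤ V (K1 * θ ^ (k + l)) z}))ᶜ := rfl
  rw [this]
  exact (h1.inter (h2.inter h3)).compl

/-- scales go to infinity -/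
theorem z1_scale (θ C : ℝ) (hθ : 1 < θ) (hC : 0 < C) (g : ℕ → ℕ) (hg : Tendsto g atTop atTop) :
    Tendsto (fun k => C * θ ^ (g k)) atTop atTop :=
  ((tendsto_pow_atTop_atTop_of_one_lt hθ).comp hg).const_mul_atTop hC

omit [MeasurableSpace A] in
theorem z1_fib (V : ℝ → A × B → ℝ) (ν : Measure B) (θ C0 K1 c : ℝ) (hθ : 1 < θ)
    (hC0 : 0 < C0) (hK1 : 0 < K1) (hc : 0 < c) (η : A) (ρ : B → ℝ)
    (hlim : ∀ δ : ℝ, 0 < δ → Tendsto (fun t : ℝ => ν {x | δ ≤ |V t (η, x) - ρ x|}) atTop (𝓝 0))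
    (n0 n' : ℕ) :
    limsup (fun k => ν (Prod.mk η ⁻¹' z1_bad V θ C0 K1 c n0 n' k)) atTop ≤
      ν {x | ρ x ≤ 3 * c} := by
  set b : ℕ → ℝ≥0∞ := fun k => ν {x | ρ x ≤ 3 * c} +
    (∑ l ∈ range (n' + n0 + 1), ν {x | c / 2 ≤ |V (C0 * θ ^ (k - n' + l)) (η, x) - ρ x|} +
      ∑ l ∈ range (n0 + 1), ν {x | c / 2 ≤ |V (K1 * θ ^ (k + l)) (η, x) - ρ x|}) with hb
  have hle : ∀ k, ν (Prod.mk η ⁻¹' z1_bad V θ C0 K1 c n0 n' k) ≤ b k := by
    intro k
    have hsub : Prod.mk η ⁻¹' z1_bad V θ C0 K1 c n0 n' k ⊆ {x | ρ x ≤ 3 * c} ∪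
        ((⋃ l ∈ range (n' + n0 + 1),
            {x | c / 2 ≤ |V (C0 * θ ^ (k - n' + l)) (η, x) - ρ x|}) ∪
          ⋃ l ∈ range (n0 + 1), {x | c / 2 ≤ |V (K1 * θ ^ (k + l)) (η, x) - ρ x|}) := by
      intro x hx
      by_contra hcon
      simp only [Set.mem_union, Set.mem_ofPred_eq, Set.mem_iUnion, not_or, not_exists,
        not_le] at hcon
      obtain ⟨h1, h2, h3⟩ := hcon
      have hk0 := h3 0 (Finset.mem_range.2 (Nat.succ_pos _))
      rw [add_zero] at hk0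
      obtain ⟨hk0a, hk0b⟩ := abs_lt.1 hk0
      apply hx
      refine ⟨by linarith, fun l hl => ?_, fun l hl => ?_⟩
      · obtain ⟨ha, hb'⟩ := abs_lt.1 (h2 l hl)
        linarith
      · obtain ⟨ha, hb'⟩ := abs_lt.1 (h3 l hl)
        linarith
    refine (measure_mono hsub).trans ((measure_union_le _ _).trans ?_)
    refine add_le_add le_rfl ((measure_union_le _ _).trans ?_)
    exact add_le_add (measure_biUnion_finset_le _ _) (measure_biUnion_finset_le _ _)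
  have hb0 : Tendsto b atTop (𝓝 (ν {x | ρ x ≤ 3 * c} + (∑ l ∈ range (n' + n0 + 1), 0 +
      ∑ l ∈ range (n0 + 1), 0))) := by
    refine Tendsto.add tendsto_const_nhds (Tendsto.add ?_ ?_)
    · refine tendsto_finsetSum _ fun l _ => ?_
      refine (hlim (c / 2) (by linarith)).comp
        (z1_scale θ C0 hθ hC0 (fun k => k - n' + l) ?_)
      exact tendsto_atTop_mono (fun k => Nat.le_add_right (k - n') l) (tendsto_sub_atTop_nat n')
    · refine tendsto_finsetSum _ fun l _ => ?_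
      refine (hlim (c / 2) (by linarith)).comp
        (z1_scale θ K1 hθ hK1 (fun k => k + l) ?_)
      exact tendsto_atTop_mono (fun k => Nat.le_add_right k l) tendsto_id
  have hlb : limsup b atTop = ν {x | ρ x ≤ 3 * c} := by
    rw [hb0.limsup_eq]
    simp
  rw [← hlb]
  exact limsup_le_limsup (Eventually.of_forall hle)

theorem z1_choose (μ : Measure A) (ν : Measure B) [IsProbabilityMeasure μ]
    [IsProbabilityMeasure ν] (V : ℝ → A × B → ℝ) (θ C0 K1 : ℝ) (hθ : 1 < θ) (hC0 : 0 < C0)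
    (hK1 : 0 < K1) (hm : ∀ t, 0 < t → Measurable (V t))
    (hlim : ∀ᵐ η ∂μ, ∃ ρ : B → ℝ, Measurable ρ ∧ (∀ᵐ x ∂ν, 0 < ρ x) ∧
      ∀ δ : ℝ, 0 < δ →
        Tendsto (fun t : ℝ => ν {x | δ ≤ |V t (η, x) - ρ x|}) atTop (𝓝 0))
    (ε : ℝ≥0∞) (hε : 0 < ε) (n0 : ℕ) :
    ∃ c : ℝ, 0 < c ∧ ∀ n' : ℕ, ∀ᶠ k in atTop,
      (μ.prod ν) (z1_bad V θ C0 K1 c n0 n' k) ≤ ε := by
  set h : ℕ → ℕ → A → ℝ≥0∞ := fun j n' η =>
    limsup (fun k => ν (Prod.mk η ⁻¹' z1_bad V θ C0 K1 (1 / ((j : ℝ) + 1)) n0 n' k)) atTop with hh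
  have hbm : ∀ (j n' k : ℕ), MeasurableSet (z1_bad V θ C0 K1 (1 / ((j : ℝ) + 1)) n0 n' k) :=
    fun j n' k => z1_bad_meas V θ C0 K1 _ hθ hC0 hK1 hm n0 n' k
  have hmeas1 : ∀ (j n' k : ℕ), Measurable fun η =>
      ν (Prod.mk η ⁻¹' z1_bad V θ C0 K1 (1 / ((j : ℝ) + 1)) n0 n' k) :=
    fun j n' k => measurable_measure_prodMk_left (hbm j n' k)
  have hmeas : ∀ j n', Measurable (h j n') := fun j n' =>
    Measurable.limsup (fun k => hmeas1 j n' k)
  set H : ℕ → A → ℝ≥0∞ := fun j η => ⨆ n', h j n' η with hH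
  have hHmeas : ∀ j, Measurable (H j) := fun j => Measurable.iSup (hmeas j)
  have hh1 : ∀ j n' η, h j n' η ≤ 1 := by
    intro j n' η
    refine limsup_le_of_le (by isBoundedDefault) (Eventually.of_forall fun k => ?_)
    exact prob_le_one
  have hH1 : ∀ j η, H j η ≤ 1 := fun j η => iSup_le fun n' => hh1 j n' η
  have hH0 : ∀ᵐ η ∂μ, Tendsto (fun j => H j η) atTop (𝓝 0) := by
    filter_upwards [hlim] with η hη
    obtain ⟨ρ, hρm, hρ0, hρl⟩ := hη
    have hle : ∀ j, H j η ≤ ν {x | ρ x ≤ 3 * (1 / ((j : ℝ) + 1))} := by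
      intro j
      refine iSup_le fun n' => ?_
      exact z1_fib V ν θ C0 K1 _ hθ hC0 hK1 (by positivity) η ρ hρl n0 n'
    have hanti : Antitone fun j : ℕ => {x | ρ x ≤ 3 * (1 / ((j : ℝ) + 1))} := by
      intro i j hij x hx
      have hx' : ρ x ≤ 3 * (1 / ((j : ℝ) + 1)) := hx
      show ρ x ≤ 3 * (1 / ((i : ℝ) + 1))
      refine le_trans hx' ?_
      have hij' : (i : ℝ) ≤ j := by exact_mod_cast hij
      have : (1 : ℝ) / ((j : ℝ) + 1) ≤ 1 / ((i : ℝ) + 1) :=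
        one_div_le_one_div_of_le (by positivity) (by linarith)
      linarith
    have hzero : ν (⋂ j : ℕ, {x | ρ x ≤ 3 * (1 / ((j : ℝ) + 1))}) = 0 := by
      refine measure_mono_null ?_ (ae_iff.1 hρ0)
      intro x hx
      simp only [Set.mem_iInter, Set.mem_ofPred_eq] at hx
      simp only [Set.mem_ofPred_eq, not_lt]
      have hlim0 : Tendsto (fun j : ℕ => 3 * (1 / ((j : ℝ) + 1))) atTop (𝓝 (3 * 0)) :=
        (tendsto_one_div_add_atTop_nhds_zero_nat).const_mul 3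
      rw [mul_zero] at hlim0
      exact ge_of_tendsto' hlim0 hx
    have htend : Tendsto (fun j : ℕ => ν {x | ρ x ≤ 3 * (1 / ((j : ℝ) + 1))}) atTop (𝓝 0) := by
      rw [← hzero]
      exact tendsto_measure_iInter_atTop
        (fun j => (measurableSet_le hρm measurable_const).nullMeasurableSet) hanti
        ⟨0, measure_ne_top _ _⟩
    exact tendsto_of_tendsto_of_tendsto_of_le_of_le tendsto_const_nhds htend
      (fun _ => bot_le) hle
  have hint : Tendsto (fun j => ∫⁻ η, H j η ∂μ) atTop (𝓝 (∫⁻ _, 0 ∂μ)) := by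
    refine tendsto_lintegral_of_dominated_convergence (fun _ => 1) hHmeas
      (fun j => Eventually.of_forall (hH1 j)) ?_ hH0
    simp
  rw [lintegral_zero] at hint
  obtain ⟨j, hj⟩ := (hint.eventually (gt_mem_nhds hε)).exists
  refine ⟨1 / ((j : ℝ) + 1), by positivity, fun n' => ?_⟩
  have hls : limsup (fun k => (μ.prod ν) (z1_bad V θ C0 K1 (1 / ((j : ℝ) + 1)) n0 n' k)) atTop ≤
      ∫⁻ η, h j n' η ∂μ := by
    have h1 : ∀ k, (μ.prod ν) (z1_bad V θ C0 K1 (1 / ((j : ℝ) + 1)) n0 n' k) =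
        ∫⁻ η, ν (Prod.mk η ⁻¹' z1_bad V θ C0 K1 (1 / ((j : ℝ) + 1)) n0 n' k) ∂μ :=
      fun k => Measure.prod_apply (hbm j n' k)
    simp only [h1]
    refine limsup_lintegral_le (fun _ => 1) (hmeas1 j n') (fun k => ?_) ?_
    · exact Eventually.of_forall fun η => prob_le_one
    · simp
  have hlt : limsup (fun k => (μ.prod ν)
      (z1_bad V θ C0 K1 (1 / ((j : ℝ) + 1)) n0 n' k)) atTop < ε := by
    refine (hls.trans (lintegral_mono fun η => ?_)).trans_lt hj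
    exact le_iSup (fun n' => h j n' η) n'
  exact (eventually_lt_of_limsup_lt hlt).mono fun k hk => hk.le

theorem z1_sqrt (μ : Measure A) (ν : Measure B) [IsProbabilityMeasure μ]
    [IsProbabilityMeasure ν] (F : A × B → ℝ) (hF : Measurable F) (h0 : ∀ z, 0 ≤ F z)
    (hi : ∀ η, Integrable (fun x => F (η, x)) ν ∧ ∫ x, F (η, x) ∂ν ≤ 1) :
    ∫⁻ z, ENNReal.ofReal (Real.sqrt (F z)) ∂(μ.prod ν) ≤ 1 := by
  rw [lintegral_prod _ (hF.sqrt.ennreal_ofReal).aemeasurable]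
  have h1 : ∀ η, ∫⁻ x, ENNReal.ofReal (Real.sqrt (F (η, x))) ∂ν ≤ 1 := by
    intro η
    obtain ⟨ha, hb⟩ := hi η
    have hI : Integrable (fun x => (1 + F (η, x)) / 2) ν :=
      ((integrable_const (1 : ℝ)).add ha).div_const 2
    have hle : ∀ x, Real.sqrt (F (η, x)) ≤ (1 + F (η, x)) / 2 := by
      intro x
      have h2 := Real.sq_sqrt (h0 (η, x))
      nlinarith [sq_nonneg (Real.sqrt (F (η, x)) - 1)]
    calc ∫⁻ x, ENNReal.ofReal (Real.sqrt (F (η, x))) ∂ν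
        ≤ ∫⁻ x, ENNReal.ofReal ((1 + F (η, x)) / 2) ∂ν :=
          lintegral_mono fun x => ENNReal.ofReal_le_ofReal (hle x)
      _ = ENNReal.ofReal (∫ x, (1 + F (η, x)) / 2 ∂ν) := by
          rw [ofReal_integral_eq_lintegral_ofReal hI
            (Eventually.of_forall fun x => by
              have := h0 (η, x)
              show (0 : ℝ) ≤ (1 + F (η, x)) / 2
              linarith)]
      _ ≤ ENNReal.ofReal 1 := by
          refine ENNReal.ofReal_le_ofReal ?_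
          rw [integral_div, integral_add (integrable_const _) ha]
          simp only [integral_const, probReal_univ, smul_eq_mul, mul_one]
          linarith
      _ = 1 := ENNReal.ofReal_one
  calc ∫⁻ η, ∫⁻ x, ENNReal.ofReal (Real.sqrt (F (η, x))) ∂ν ∂μ ≤ ∫⁻ _, 1 ∂μ :=
        lintegral_mono h1
    _ = 1 := by simp

theorem z1_abs (μ : Measure A) (ν : Measure B) [IsProbabilityMeasure μ]
    [IsProbabilityMeasure ν] (V : ℝ → A × B → ℝ) (θ C0 K1 : ℝ) (hθ : 1 < θ) (hC0 : 0 < C0)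
    (hK1 : 0 < K1) (hm : ∀ t, 0 < t → Measurable (V t)) (h0 : ∀ t, 0 < t → ∀ z, 0 ≤ V t z)
    (hi : ∀ t, 0 < t → ∀ η, Integrable (fun x => V t (η, x)) ν ∧ ∫ x, V t (η, x) ∂ν ≤ 1)
    (hlim : ∀ᵐ η ∂μ, ∃ ρ : B → ℝ, Measurable ρ ∧ (∀ᵐ x ∂ν, 0 < ρ x) ∧
      ∀ δ : ℝ, 0 < δ →
        Tendsto (fun t : ℝ => ν {x | δ ≤ |V t (η, x) - ρ x|}) atTop (𝓝 0))
    (δ : ℝ) (hδ : 0 < δ) (n0 : ℕ) :
    ∃ (c0 : ℝ) (n' k0 : ℕ), 0 < c0 ∧ ∀ k, k0 ≤ k →
      (μ.prod ν) {z | ¬ ∃ ρ, c0 ≤ ρ ∧ Cnd θ C0 K1 ρ k n' n0 (fun t => V t z)} ≤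
        ENNReal.ofReal δ := by
  have hp : ∀ i : ℕ, 0 < θ ^ i := fun i => pow_pos (by linarith) i
  obtain ⟨c, hc, hbad⟩ := z1_choose μ ν V θ C0 K1 hθ hC0 hK1 hm hlim
    (ENNReal.ofReal (δ / 2)) (ENNReal.ofReal_pos.2 (by linarith)) n0
  have hsc : 0 < Real.sqrt c := Real.sqrt_pos.2 hc
  obtain ⟨n', hn'⟩ := z1_tail θ hθ (δ / 2 * Real.sqrt c) (by positivity)
  obtain ⟨k1, hk1⟩ := eventually_atTop.1 (hbad n')
  refine ⟨c, n', max k1 n', hc, fun k hk => ?_⟩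
  have hkk1 : k1 ≤ k := (le_max_left _ _).trans hk
  have hkn : n' ≤ k := (le_max_right _ _).trans hk
  set Sm : A × B → ℝ := fun z =>
    ∑ i ∈ range (k - n'), ((k : ℝ) - i + 1) * Real.sqrt (θ ^ i * V (C0 * θ ^ i) z) with hSm
  have hsub : {z | ¬ ∃ ρ, c ≤ ρ ∧ Cnd θ C0 K1 ρ k n' n0 (fun t => V t z)} ⊆
      z1_bad V θ C0 K1 c n0 n' k ∪ {z | Real.sqrt (c * θ ^ k) ≤ Sm z} := by
    intro z hz
    by_contra hcon
    rw [Set.mem_union, not_or] at hcon
    obtain ⟨h1, h2⟩ := hcon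
    rw [Set.mem_ofPred_eq, not_le] at h2
    unfold z1_bad at h1
    rw [Set.mem_ofPred_eq, not_not] at h1
    obtain ⟨ha, hb, hcc⟩ := h1
    apply hz
    refine ⟨V (K1 * θ ^ k) z / 2, by linarith, hkn, ?_, ?_, ?_⟩
    · intro i hi1 hi2
      have := hb (i + n' - k) (Finset.mem_range.2 (by omega))
      have he : k - n' + (i + n' - k) = i := by omega
      rw [he] at this
      linarith
    · intro i hi1 hi2
      have := hcc (i - k) (Finset.mem_range.2 (by omega))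
      have he : k + (i - k) = i := by omega
      rwa [he] at this
    · refine h2.le.trans (Real.sqrt_le_sqrt ?_)
      exact mul_le_mul_of_nonneg_right (by linarith) (hp k).le
  have hsecond : (μ.prod ν) {z | Real.sqrt (c * θ ^ k) ≤ Sm z} ≤ ENNReal.ofReal (δ / 2) := by
    set a : ℕ → ℝ := fun i => ((k : ℝ) - i + 1) * Real.sqrt (θ ^ i) with ha
    have ha0 : ∀ i ∈ range (k - n'), 0 ≤ a i := by
      intro i hi
      have hi' := Finset.mem_range.1 hi
      have : (i : ℝ) ≤ k := by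
        exact_mod_cast (by omega : i ≤ k)
      exact mul_nonneg (by linarith) (Real.sqrt_nonneg _)
    have hfac : ∀ i z, ((k : ℝ) - i + 1) * Real.sqrt (θ ^ i * V (C0 * θ ^ i) z) =
        a i * Real.sqrt (V (C0 * θ ^ i) z) := by
      intro i z
      rw [ha, Real.sqrt_mul (hp i).le, mul_assoc]
    have hlint : ∫⁻ z, ENNReal.ofReal (Sm z) ∂(μ.prod ν) ≤
        ENNReal.ofReal (∑ i ∈ range (k - n'), a i) := by
      have h1 : ∀ z, ENNReal.ofReal (Sm z) = ∑ i ∈ range (k - n'),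
          ENNReal.ofReal (a i) * ENNReal.ofReal (Real.sqrt (V (C0 * θ ^ i) z)) := by
        intro z
        rw [hSm]
        simp only [hfac]
        rw [ENNReal.ofReal_sum_of_nonneg fun i hi =>
          mul_nonneg (ha0 i hi) (Real.sqrt_nonneg _)]
        exact Finset.sum_congr rfl fun i hi => ENNReal.ofReal_mul (ha0 i hi)
      simp only [h1]
      rw [lintegral_finsetSum' _ fun i _ => ?_]
      · rw [ENNReal.ofReal_sum_of_nonneg ha0]
        refine Finset.sum_le_sum fun i _ => ?_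
        rw [lintegral_const_mul _
          ((hm _ (mul_pos hC0 (hp i))).sqrt.ennreal_ofReal)]
        have := z1_sqrt μ ν (V (C0 * θ ^ i)) (hm _ (mul_pos hC0 (hp i)))
          (h0 _ (mul_pos hC0 (hp i))) (hi _ (mul_pos hC0 (hp i)))
        calc ENNReal.ofReal (a i) * _ ≤ ENNReal.ofReal (a i) * 1 := mul_le_mul_right this _
          _ = ENNReal.ofReal (a i) := mul_one _
      · exact (((hm _ (mul_pos hC0 (hp i))).sqrt.ennreal_ofReal).const_mul _).aemeasurable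
    have hSmm : Measurable Sm := by
      refine Finset.measurable_sum _ fun i _ => ?_
      exact (((hm _ (mul_pos hC0 (hp i))).const_mul _).sqrt).const_mul _
    have hsq : 0 < Real.sqrt (c * θ ^ k) := Real.sqrt_pos.2 (mul_pos hc (hp k))
    have hmk := mul_meas_ge_le_lintegral₀ (μ := μ.prod ν)
      (hSmm.ennreal_ofReal).aemeasurable (ENNReal.ofReal (Real.sqrt (c * θ ^ k)))
    have hset : {z | Real.sqrt (c * θ ^ k) ≤ Sm z} ⊆
        {z | ENNReal.ofReal (Real.sqrt (c * θ ^ k)) ≤ ENNReal.ofReal (Sm z)} :=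
      fun z hz => ENNReal.ofReal_le_ofReal hz
    have h2 : ENNReal.ofReal (Real.sqrt (c * θ ^ k)) *
        (μ.prod ν) {z | Real.sqrt (c * θ ^ k) ≤ Sm z} ≤
        ENNReal.ofReal (δ / 2) * ENNReal.ofReal (Real.sqrt (c * θ ^ k)) := by
      refine (mul_le_mul_right (measure_mono hset) _).trans (hmk.trans (hlint.trans ?_))
      rw [← ENNReal.ofReal_mul (by linarith)]
      refine ENNReal.ofReal_le_ofReal ((hn' k hkn).trans (le_of_eq ?_))
      rw [Real.sqrt_mul hc.le]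
      ring
    rw [mul_comm] at h2
    exact (ENNReal.mul_le_mul_iff_left (ENNReal.ofReal_pos.2 hsq).ne' ENNReal.ofReal_ne_top).1 h2
  calc (μ.prod ν) {z | ¬ ∃ ρ, c ≤ ρ ∧ Cnd θ C0 K1 ρ k n' n0 (fun t => V t z)}
      ≤ (μ.prod ν) (z1_bad V θ C0 K1 c n0 n' k ∪ {z | Real.sqrt (c * θ ^ k) ≤ Sm z}) :=
        measure_mono hsub
    _ ≤ _ := measure_union_le _ _
    _ ≤ ENNReal.ofReal (δ / 2) + ENNReal.ofReal (δ / 2) := add_le_add (hk1 k hkk1) hsecond
    _ = ENNReal.ofReal δ := by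
        rw [← ENNReal.ofReal_add (by linarith) (by linarith)]
        congr 1
        ring

end z1

theorem st_Z1 : ST_Z1 := by
  intro s n V θ C0 K1 hθ hC0 hK1 hm h0 hi hlim δ hδ n0
  exact z1_abs (tor s) (tor n) V θ C0 K1 hθ hC0 hK1 hm h0 hi hlim δ hδ n0

end Pool.Agent.Helper97.FS
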